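import Pool.Agent.Y924.UF.Stm3

/-! # Project UF: a coded bijection exists if and only if the numbers of elements are equal -/

set_option autoImplicit false

namespace Pool.Agent.Y833.UF

open Pool.Agent.Y924.UF

theorem ncard_of_bij {K : Type} {R : K → K → Prop} {X Y : Set K} (h : Bij R X Y) :
    X.ncard = Y.ncard := by
  obtain ⟨h1, h2⟩ := h
  choose f hf hR hu using h1
  refine Set.ncard_congr f hf ?_ ?_
  · intro a b ha hb hab
    obtain ⟨c, hc, hRc, huc⟩ := h2 (f a ha) (hf a ha)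
    have e1 := huc a ha (hR a ha)
    have e2 := huc b hb (by rw [hab]; exact hR b hb)
    rw [e1, e2]
  · intro b hb
    obtain ⟨a, ha, hRa, -⟩ := h2 b hb
    exact ⟨a, ha, (hu a ha b hb hRa).symm⟩

theorem bij_of_ncard {K : Type} [Nonempty K] {X Y : Set K} (hX : X.Finite) (hY : Y.Finite)
    (h : X.ncard = Y.ncard) : ∃ f : K → K, ∀ R : K → K → Prop,
      (∀ a ∈ X ∪ Y, ∀ b ∈ X ∪ Y, (R a b ↔ b = f a)) → Bij R X Y := by
  have h1 : X.encard = Y.encard := by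
    rw [← hX.cast_ncard_eq, ← hY.cast_ncard_eq, h]
  obtain ⟨f, hf⟩ := hX.exists_bijOn_of_encard_eq h1
  refine ⟨f, fun R hR => ⟨fun a ha => ?_, fun b hb => ?_⟩⟩
  · refine ⟨f a, hf.mapsTo ha, (hR a (Or.inl ha) _ (Or.inr (hf.mapsTo ha))).2 rfl, ?_⟩
    intro b' hb' hab'
    exact (hR a (Or.inl ha) b' (Or.inr hb')).1 hab'
  · obtain ⟨a, ha, rfl⟩ := hf.surjOn hb
    refine ⟨a, ha, (hR a (Or.inl ha) _ (Or.inr hb)).2 rfl, ?_⟩
    intro a' ha' h'
    exact (hf.injOn ha ha' ((hR a' (Or.inl ha') _ (Or.inr hb)).1 h')).symm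

theorem t_CEQ : S_CODE → S_CEQ := by
  intro hC p _ X Y hX hY
  constructor
  · rintro ⟨t, u, w, s, h⟩
    exact ncard_of_bij h
  · intro h
    obtain ⟨f, hf⟩ := bij_of_ncard hX hY h
    obtain ⟨t, u, w, hs⟩ := hC p (X ∪ Y) (hX.union hY)
    obtain ⟨s, hs⟩ := hs fun a b => b = f a
    exact ⟨t, u, w, s, hf _ hs⟩

end Pool.Agent.Y833.UF
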